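import Pool.Agent.Run7.h860.Hd.Stm2

/-!
# Piece HR (helper860, half of the arithmetic discriminant): evaluation at the points of a highly
transitive set
-/

set_option autoImplicit false

open Polynomial Finset

namespace Run7.h639.Hd

open Pool.Agent.Run7.h860.Hd

variable {k Ω : Type} [Field k] [Field Ω] [Algebra k Ω] {D : Finset Ω} {d : ℕ}

lemma exists_sigma (hT : Trans k Ω D d) {t : ℕ} (ht : t ≤ d) (a a' : Fin t → Ω)
    (ha : ∀ i, a i ∈ D) (ha' : ∀ i, a' i ∈ D) (hi : Function.Injective a)
    (hi' : Function.Injective a') : ∃ σ : Ω ≃ₐ[k] Ω, ∀ i, σ (a i) = a' i := by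
  classical
  have key : ∀ j : ℕ, j ≤ t → ∃ σ : Ω ≃ₐ[k] Ω, ∀ i : Fin t, (i : ℕ) < j → σ (a i) = a' i := by
    intro j
    induction j with
    | zero => exact fun _ => ⟨AlgEquiv.refl, fun i hi => absurd hi (Nat.not_lt_zero _)⟩
    | succ j ih =>
      intro hj
      obtain ⟨σ, hσ⟩ := ih (by omega)
      have hjt : j < t := by omega
      let J : Fin t := ⟨j, hjt⟩
      let B : Finset Ω := (Finset.univ.filter fun i : Fin t => (i : ℕ) < j).image a'
      have hBD : B ⊆ D := by
        intro x hx
        obtain ⟨i, _, rfl⟩ := Finset.mem_image.1 hx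
        exact ha' i
      have hBc : B.card < d := by
        have h1 : B.card ≤ (Finset.univ.filter fun i : Fin t => (i : ℕ) < j).card :=
          Finset.card_image_le
        have h2 : (Finset.univ.filter fun i : Fin t => (i : ℕ) < j).card ≤ (Finset.range j).card := by
          refine Finset.card_le_card_of_injOn (fun i => (i : ℕ)) ?_ ?_
          · intro i hi
            exact Finset.mem_coe.2 (Finset.mem_range.2 (Finset.mem_filter.1 hi).2)
          · intro x _ y _ hxy
            exact Fin.ext hxy
        rw [Finset.card_range] at h2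
        omega
      have hx : σ (a J) ∉ B := by
        intro hx
        obtain ⟨i, hi1, hi2⟩ := Finset.mem_image.1 hx
        have hij := (Finset.mem_filter.1 hi1).2
        rw [← hσ i hij] at hi2
        have h3 := hi (σ.injective hi2)
        rw [h3] at hij
        exact lt_irrefl _ hij
      have hx' : a' J ∉ B := by
        intro hx
        obtain ⟨i, hi1, hi2⟩ := Finset.mem_image.1 hx
        have hij := (Finset.mem_filter.1 hi1).2
        have h3 := hi' hi2
        rw [h3] at hij
        exact lt_irrefl _ hij
      obtain ⟨τ, hτ1, hτ2⟩ := hT.2 B hBD hBc (σ (a J)) (hT.1 σ _ (ha J)) (a' J) (ha' J) hx hx'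
      refine ⟨σ.trans τ, fun i hij => ?_⟩
      rw [AlgEquiv.trans_apply]
      rcases Nat.lt_succ_iff_lt_or_eq.1 hij with h | h
      · rw [hσ i h]
        exact hτ1 _ (Finset.mem_image.2 ⟨i, Finset.mem_filter.2 ⟨Finset.mem_univ _, h⟩, rfl⟩)
      · have : i = J := Fin.ext h
        rw [this]
        exact hτ2
  obtain ⟨σ, hσ⟩ := key t le_rfl
  exact ⟨σ, fun i => hσ i i.2⟩

theorem t_HR : S_EX → S_HR := by
  classical
  intro hEX k Ω _ _ _ D d t hT hD ht e P he hP A hA hAt y hy
  -- no common kernel
  have hker : ∀ z : Fin t → Ω, (∀ a : D, ∑ i, aeval (a : Ω) (e i) * z i = 0) → z = 0 := by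
    intro z hz
    set F : Polynomial Ω := ∑ i, C (z i) * (e i).map (algebraMap k Ω) with hF
    have hdeg : F.natDegree ≤ d := by
      refine Polynomial.natDegree_sum_le_of_forall_le _ _ fun i _ => ?_
      refine (Polynomial.natDegree_C_mul_le _ _).trans ?_
      rw [Polynomial.natDegree_map]
      exact he i
    have hF0 : F = 0 := by
      apply Polynomial.eq_zero_of_natDegree_lt_card_of_eval_eq_zero' F D
      · intro x hx
        rw [hF, Polynomial.eval_finsetSum]
        rw [← hz ⟨x, hx⟩]
        refine Finset.sum_congr rfl fun i _ => ?_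
        rw [Polynomial.eval_mul, Polynomial.eval_C, Polynomial.eval_map, ← Polynomial.aeval_def,
          mul_comm]
      · omega
    have hco : ∀ l : Fin (d + 1), ∑ i, z i * algebraMap k Ω ((e i).coeff l) = 0 := by
      intro l
      have := congrArg (fun q => Polynomial.coeff q (l : ℕ)) hF0
      simp only [hF, Polynomial.finsetSum_coeff, Polynomial.coeff_C_mul, Polynomial.coeff_map,
        Polynomial.coeff_zero] at this
      exact this
    funext j
    calc z j = ∑ i, z i * algebraMap k Ω (if j = i then 1 else 0) := by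
          rw [Finset.sum_eq_single j]
          · rw [if_pos rfl, map_one, mul_one]
          · intro b _ hb
            rw [if_neg hb.symm, map_zero, mul_zero]
          · intro h
            exact absurd (Finset.mem_univ _) h
      _ = ∑ i, z i * algebraMap k Ω (∑ l : Fin (d + 1), P j l * (e i).coeff l) := by
          refine Finset.sum_congr rfl fun i _ => ?_
          rw [hP j i]
      _ = ∑ i, ∑ l : Fin (d + 1), algebraMap k Ω (P j l) * (z i * algebraMap k Ω ((e i).coeff l)) := by
          refine Finset.sum_congr rfl fun i _ => ?_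
          rw [map_sum, Finset.mul_sum]
          refine Finset.sum_congr rfl fun l _ => ?_
          rw [map_mul]
          ring
      _ = ∑ l : Fin (d + 1), algebraMap k Ω (P j l) * ∑ i, z i * algebraMap k Ω ((e i).coeff l) := by
          rw [Finset.sum_comm]
          refine Finset.sum_congr rfl fun l _ => ?_
          rw [Finset.mul_sum]
      _ = 0 := by
          refine Finset.sum_eq_zero fun l _ => ?_
          rw [hco l, mul_zero]
  obtain ⟨s, hs, hsi, -⟩ := hEX Ω D t (fun a i => aeval (a : Ω) (e i)) hker ∅
    (by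
      have : IsEmpty ((∅ : Finset D) : Type _) := ⟨fun x => absurd x.2 (Finset.notMem_empty _)⟩
      exact linearIndependent_empty_type)
  -- the enumeration of `A`
  let enum : Fin t ≃ A := (A.equivFinOfCardEq hAt).symm
  obtain ⟨σ, hσ⟩ := exists_sigma hT ht (fun i => ((s i : D) : Ω)) (fun i => ((enum i : A) : Ω))
    (fun i => (s i).2) (fun i => hA (enum i).2)
    (fun i j hij => hsi (Subtype.ext hij)) (fun i j hij => enum.injective (Subtype.ext hij))
  have hdet : (Matrix.of fun i j : Fin t => aeval ((enum i : A) : Ω) (e j)).det ≠ 0 := by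
    have h1 : (Matrix.of fun i j : Fin t => aeval ((enum i : A) : Ω) (e j)) =
        (σ : Ω →+* Ω).mapMatrix (Matrix.of fun i j : Fin t => aeval ((s i : D) : Ω) (e j)) := by
      ext i j
      rw [RingHom.mapMatrix_apply, Matrix.map_apply, Matrix.of_apply, Matrix.of_apply, ← hσ i]
      exact Polynomial.aeval_algHom_apply (σ : Ω →ₐ[k] Ω) _ _
    rw [h1, ← RingHom.map_det]
    intro h2
    exact hs ((map_eq_zero_iff (σ : Ω →+* Ω) σ.injective).1 h2)
  apply Matrix.eq_zero_of_mulVec_eq_zero hdet
  funext i
  have := hy _ (enum i).2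
  rw [Matrix.mulVec, Pi.zero_apply, ← this]
  unfold dotProduct
  refine Finset.sum_congr rfl fun j _ => ?_
  exact mul_comm _ _

end Run7.h639.Hd
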