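import Pool.Agent.Run7.h860.Hd.Stm2

/-!
# Piece TR (helper860, half of the arithmetic discriminant): transitive Galois action gives general position
-/

set_option autoImplicit false

open Polynomial Finset

namespace Run7.h639.Hd

open Pool.Agent.Run7.h860.Hd

theorem t_TR : S_TR := by
  classical
  intro k Ω _ _ _ _ D d hT hD B hB hBd a ha haB
  have hint : IsIntegral (IntermediateField.adjoin k (B : Set Ω)) a :=
    ((Algebra.IsAlgebraic.isAlgebraic (R := k) a).tower_top _).isIntegral
  set p := minpoly (IntermediateField.adjoin k (B : Set Ω)) a with hp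
  have hp0 : p ≠ 0 := minpoly.ne_zero hint
  have hp0' : p.map (algebraMap (IntermediateField.adjoin k (B : Set Ω)) Ω) ≠ 0 :=
    (Polynomial.map_ne_zero_iff (algebraMap (IntermediateField.adjoin k (B : Set Ω)) Ω).injective).2 hp0
  have hroots : (D \ B) ⊆ (p.map (algebraMap (IntermediateField.adjoin k (B : Set Ω)) Ω)).roots.toFinset := by
    intro a' ha'
    rw [Finset.mem_sdiff] at ha'
    obtain ⟨σ, hσ1, hσ2⟩ := hT.2 B hB hBd a ha a' ha'.1 haB ha'.2
    have hfix : ∀ x ∈ IntermediateField.adjoin k (B : Set Ω), σ x = x := by
      intro x hx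
      induction hx using IntermediateField.adjoin_induction with
      | mem x hx => exact hσ1 x hx
      | algebraMap x => exact σ.commutes x
      | add x y _ _ hx hy => rw [map_add, hx, hy]
      | inv x _ hx => rw [map_inv₀, hx]
      | mul x y _ _ hx hy => rw [map_mul, hx, hy]
    rw [Multiset.mem_toFinset, Polynomial.mem_roots hp0', Polynomial.IsRoot.def, Polynomial.eval_map]
    have h1 : eval₂ (algebraMap (IntermediateField.adjoin k (B : Set Ω)) Ω) a p = 0 := by
      have := minpoly.aeval (IntermediateField.adjoin k (B : Set Ω)) a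
      rwa [Polynomial.aeval_def] at this
    have h2 := congrArg (σ : Ω →+* Ω) h1
    rw [Polynomial.hom_eval₂, map_zero] at h2
    have h3 : (σ : Ω →+* Ω).comp (algebraMap (IntermediateField.adjoin k (B : Set Ω)) Ω) =
        algebraMap (IntermediateField.adjoin k (B : Set Ω)) Ω := by
      ext x
      exact hfix _ x.2
    rw [h3] at h2
    rw [← hσ2]
    exact h2
  have h4 : (D \ B).card ≤ p.natDegree := by
    refine (Finset.card_le_card hroots).trans ((Multiset.toFinset_card_le _).trans ?_)
    refine (Polynomial.card_roots' _).trans ?_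
    rw [Polynomial.natDegree_map]
  rw [Finset.card_sdiff_of_subset hB] at h4
  have : d ^ 2 < D.card - B.card := by omega
  omega

end Run7.h639.Hd
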